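import Mathlib
import Pool.Agent.Y879.GL.Pattern

set_option autoImplicit false

/-!
# Almost prime sexy pairs between consecutive cubes: number and gap laws

The integers `p ≡ 1 (mod 30)` between two consecutive cubes for which neither `p` nor `p + 6` has a prime factor
`≤ n ^ (1 / r)`. (Here `p + 2` and `p + 4` are divisible by `3` and `5`, so that there is no prime between
`p` and `p + 6`.)
-/

namespace Pool.Agent.Results.MP_5628fe_nt.GapLaws

open Finset Filter

/-- `p ≡ 1` modulo `30` and neither `p` nor `p + 6` has a prime factor `q ≤ n ^ (1 / r)` -/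
def Good (n r p : ℕ) : Prop :=
  p % 30 = 1 ∧ ∀ q : ℕ, q.Prime → (q : ℝ) ≤ (n : ℝ) ^ (1 / (r : ℝ)) → ¬ q ∣ p ∧ ¬ q ∣ p + 6

/-- the density: `1 / 30` times the product of `1 - 2 / q` over the primes `5 < q ≤ n ^ (1 / r)` -/
noncomputable def V (n r : ℕ) : ℝ :=
  (∏ q ∈ (Ioc 5 ⌊(n : ℝ) ^ (1 / (r : ℝ))⌋₊).filter Nat.Prime, (1 - 2 / (q : ℝ))) / 30

open Classical in
/-- the number of the good `p` strictly between `n ^ 3` and `(n + 1) ^ 3` for which fewer than `l` of the
integers in `[p - T, p)` are good -/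
noncomputable def Far (n r l T : ℕ) : ℕ :=
  ((Ioo (n ^ 3) ((n + 1) ^ 3)).filter (fun p => Good n r p ∧
    ((Ico (p - T) p).filter (fun m => Good n r m)).card < l)).card

/-- the shifts -/
def sh : Fin 2 → ℕ := ![0, 6]

lemma good_iff (n r p : ℕ) :
    Good n r p ↔ Pool.Agent.Y879.GL.Rg 30 1 sh ⌊(n : ℝ) ^ (1 / (r : ℝ))⌋₊ p := by
  unfold Good Pool.Agent.Y879.GL.Rg
  constructor
  · rintro ⟨h1, h2⟩
    refine ⟨h1, fun q hq hqy i => ?_⟩
    have h3 := h2 q hq ((Nat.le_floor_iff (by positivity)).1 hqy)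
    fin_cases i
    · exact h3.1
    · exact h3.2
  · rintro ⟨h1, h2⟩
    refine ⟨h1, fun q hq hqy => ?_⟩
    have h3 := h2 q hq (Nat.le_floor hqy)
    exact ⟨h3 0, h3 1⟩

lemma Far_eq (n r l T : ℕ) : Far n r l T = Pool.Agent.TH464.PO.Pk
    (Pool.Agent.Y879.GL.Rg 30 1 sh ⌊(n : ℝ) ^ (1 / (r : ℝ))⌋₊) l T (n ^ 3) (3 * n ^ 2 + 3 * n) := by
  classical
  unfold Far Pool.Agent.TH464.PO.Pk
  have hcub : (n + 1) ^ 3 = n ^ 3 + (3 * n ^ 2 + 3 * n) + 1 := by ring
  have hI : Ioo (n ^ 3) ((n + 1) ^ 3) = Ioc (n ^ 3) (n ^ 3 + (3 * n ^ 2 + 3 * n)) := by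
    ext p
    rw [mem_Ioo, mem_Ioc]
    omega
  rw [hI]
  congr 1
  apply filter_congr
  intro m _
  rw [good_iff]
  have : (Ico (m - T) m).filter (fun p => Good n r p) =
      (Ico (m - T) m).filter (Pool.Agent.Y879.GL.Rg 30 1 sh ⌊(n : ℝ) ^ (1 / (r : ℝ))⌋₊) :=
    filter_congr fun p _ => good_iff n r p
  rw [this]

lemma pat : Pool.Agent.Y879.GL.Pat 5 30 1 sh where
  hM := by norm_num
  hc := by norm_num
  hk := by norm_num
  hkP := by norm_num
  hpr := fun p hp => by
    constructor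
    · intro h
      have h1 : p ∣ 2 * 3 * 5 := h
      rcases hp.dvd_mul.1 h1 with h2 | h2
      · rcases hp.dvd_mul.1 h2 with h3 | h3
        · exact (Nat.le_of_dvd (by norm_num) h3).trans (by norm_num)
        · exact (Nat.le_of_dvd (by norm_num) h3).trans (by norm_num)
      · exact Nat.le_of_dvd (by norm_num) h2
    · intro h
      have := hp.two_le
      interval_cases p
      · norm_num
      · norm_num
      · exact absurd hp (by norm_num)
      · norm_num
  cop := fun i => by fin_cases i <;> decide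
  inj := fun i j h => by
    fin_cases i <;> fin_cases j
    · rfl
    · exact absurd h (by decide)
    · exact absurd h (by decide)
    · rfl
  dif := fun i j hij p hp hpP hd => by
    have h6 : ∀ x : ℤ, (x = 6 ∨ x = -6) → ¬ (p : ℤ) ∣ x := by
      intro x hx h
      have h1 : p ∣ 6 := by
        have h2 := Int.natAbs_dvd_natAbs.2 h
        rcases hx with rfl | rfl
        · simpa using h2
        · simpa using h2
      have h3 : p ∣ 2 * 3 := h1
      rcases hp.dvd_mul.1 h3 with h2 | h2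
      · have := Nat.le_of_dvd (by norm_num) h2
        omega
      · have := Nat.le_of_dvd (by norm_num) h2
        omega
    fin_cases i <;> fin_cases j
    · exact hij rfl
    · exact h6 _ (Or.inr (by decide)) hd
    · exact h6 _ (Or.inl (by decide)) hd
    · exact hij rfl

/-- **Almost prime sexy pairs between consecutive cubes.** (1) If `p` is good, `p > 1` and `p`, `p + 6` are
primes, then they are consecutive primes. (2) For `l₀`, `x₀` and `ε > 0` there is `r₀` such that for all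
`r ≥ r₀` and ALL large `n`: the number `Far` of the good `p` strictly between `n ^ 3` and `(n + 1) ^ 3` with fewer
than `l` good integers in `[p - T, p)` is, with `Y = 3 n ^ 2 + 3 n`, the value
`Y V ∑_{j < l} exp (- T V) (T V) ^ j / j!` for the Poisson process of density `V`, up to `ε Y V`, for all
`l ≤ l₀` and all `T`, and for all `l` and all `T ≤ x₀ / V`. (For `T = 0`, `l = 1` this is the number of
the good integers.) -/
theorem result : (∀ n r p : ℕ, 1 < p → Good n r p → ∀ m : ℕ, p < m → m < p + 6 → ¬ m.Prime) ∧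
    ∀ (l₀ : ℕ) (x₀ ε : ℝ), 0 < ε → ∃ r₀ : ℕ, ∀ r : ℕ, r₀ ≤ r → ∀ᶠ n : ℕ in atTop,
      ∀ l T : ℕ, (l ≤ l₀ ∨ T * V n r ≤ x₀) →
        |(Far n r l T : ℝ) - (3 * (n : ℝ) ^ 2 + 3 * n) * V n r *
          ∑ j ∈ range l, Real.exp (-(T * V n r)) * (T * V n r) ^ j / j.factorial| ≤
          ε * ((3 * (n : ℝ) ^ 2 + 3 * n) * V n r) := by
  refine ⟨?_, ?_⟩
  · intro n r p hp1 hg m hm1 hm2 hm
    have hg1 := hg.1
    have h31 : 31 ≤ p := by omega
    have hm30 : m % 30 = 2 ∨ m % 30 = 3 ∨ m % 30 = 4 ∨ m % 30 = 5 ∨ m % 30 = 6 := by omega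
    rcases hm30 with h | h | h | h | h
    · have h2 : 2 ∣ m := by omega
      have := (Nat.prime_dvd_prime_iff_eq Nat.prime_two hm).1 h2
      omega
    · have h2 : 3 ∣ m := by omega
      have := (Nat.prime_dvd_prime_iff_eq Nat.prime_three hm).1 h2
      omega
    · have h2 : 2 ∣ m := by omega
      have := (Nat.prime_dvd_prime_iff_eq Nat.prime_two hm).1 h2
      omega
    · have h2 : 5 ∣ m := by omega
      have := (Nat.prime_dvd_prime_iff_eq Nat.prime_five hm).1 h2
      omega
    · have h2 : 2 ∣ m := by omega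
      have := (Nat.prime_dvd_prime_iff_eq Nat.prime_two hm).1 h2
      omega
  · intro l₀ x₀ ε hε
    obtain ⟨r₀, H⟩ := Pool.Agent.Y879.GL.gap_pat pat (fun i => by fin_cases i <;> decide) 1 one_pos l₀ x₀ ε hε
    refine ⟨r₀, fun r hr => ?_⟩
    filter_upwards [H r hr, eventually_ge_atTop 1] with n hn hn1 l T hT
    have hV : Pool.Agent.Y879.GL.VP 5 30 2 ⌊(n : ℝ) ^ (1 / (r : ℝ))⌋₊ = V n r := by
      unfold Pool.Agent.Y879.GL.VP V
      norm_num
    have h1 := hn (n ^ 3) (3 * n ^ 2 + 3 * n) (Nat.one_le_pow _ _ hn1) (by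
      rw [Real.rpow_one]
      push_cast
      have : (0 : ℝ) ≤ n := Nat.cast_nonneg n
      nlinarith) l T (by rw [hV]; exact hT)
    rw [hV] at h1
    rw [Far_eq]
    push_cast at h1
    exact h1

end Pool.Agent.Results.MP_5628fe_nt.GapLaws
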