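import Mathlib
import Pool.Agent.R960.Fam.Exact

set_option autoImplicit false

/-!
# Consecutive elements with a given difference between consecutive cubes, in random models

The integers are decided one after the other; no independence is assumed.  Fix a finite set `Q` of
primes; multiples of the primes of `Q` are never chosen and the other integers `n + 1` are chosen with
conditional probability `(1 + o(1)) ∏_{p ∈ Q} (1 - 1/p)⁻¹ / log n`.  Let `S_d(n)` be the number of pairs of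
CONSECUTIVE chosen integers with difference `d` strictly between `n^3` and `(n + 1)^3`.  Almost surely, for
every `d ≥ 1`, `S_d(n) (log n)² / n² → 𝔖_d / 3`, where `𝔖_d = ∏_{p ∈ Q} (1 - ν_d(p)/p) / (1 - 1/p)²`,
`ν_d(p) = 1` if `p` divides `d`, else `2`.  In particular (`d = 6`, sexy pairs) `S_6(n) → ∞`.
-/

open MeasureTheory Filter
open scoped Topology

namespace Pool.Agent.Results.MP_5628fe_nt.GapsInSievedModels

/-- the conditional probability that `n + 1` is chosen, given the information up to `n` -/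
noncomputable def density {Ω : Type} {mΩ : MeasurableSpace Ω} (μ : Measure Ω) (ℱ : Filtration ℕ mΩ)
    (A : ℕ → Set Ω) (n : ℕ) : Ω → ℝ := μ[(A (n + 1)).indicator (fun _ => (1 : ℝ)) | ℱ n]

/-- the number of pairs `(m, m + d)` of consecutive elements of `S` strictly between `n^3` and `(n + 1)^3` -/
noncomputable def gapCount (S : Set ℕ) (d n : ℕ) : ℕ :=
  {m : ℕ | m ∈ S ∧ m + d ∈ S ∧ (∀ j, m < j → j < m + d → j ∉ S) ∧ n ^ 3 < m ∧ m + d < (n + 1) ^ 3}.ncard

/-- the number of pairs `(m, m + d)` of consecutive elements of `S` with `m` in `(y, y + h]` -/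
noncomputable def gapPairs (S : Set ℕ) (d y h : ℕ) : ℕ :=
  {m : ℕ | (y < m ∧ m ≤ y + h) ∧ m ∈ S ∧ m + d ∈ S ∧ ∀ j, m < j → j < m + d → j ∉ S}.ncard

/-- the Hardy and Littlewood factors of the primes of `Q` for the difference `d` -/
noncomputable def gapFactor (Q : Finset ℕ) (d : ℕ) : ℝ :=
  ∏ p ∈ Q, (1 - (if p ∣ d then 1 else 2) / (p : ℝ)) / (1 - 1 / (p : ℝ)) ^ 2

lemma occ_gap {p : ℕ} (hp : p.Prime) (d : ℕ) : Pool.Agent.R528.RM.occ {0, d} p = if p ∣ d then 1 else 2 := by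
  unfold Pool.Agent.R528.RM.occ
  rw [Finset.image_insert, Finset.image_singleton, Nat.zero_mod]
  split_ifs with h
  · rw [Nat.mod_eq_zero_of_dvd h]
    rfl
  · have h1 : d % p ≠ 0 := fun h2 => h (Nat.dvd_of_mod_eq_zero h2)
    rw [Finset.card_insert_of_notMem (by simpa using h1.symm), Finset.card_singleton]

lemma card_pair {d : ℕ} (hd : 1 ≤ d) : ({0, d} : Finset ℕ).card = 2 := by
  rw [Finset.card_insert_of_notMem (by simp; omega), Finset.card_singleton]

lemma sing_eq (Q : Finset ℕ) (hQ : ∀ p ∈ Q, p.Prime) {d : ℕ} (hd : 1 ≤ d) :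
    Pool.Agent.R528.RM.singH Q {0, d} = gapFactor Q d := by
  unfold Pool.Agent.R528.RM.singH gapFactor
  refine Finset.prod_congr rfl fun p hp => ?_
  rw [occ_gap (hQ p hp), card_pair hd]
  split_ifs <;> norm_num

lemma six_pos (Q : Finset ℕ) (hQ : ∀ p ∈ Q, p.Prime) : 0 < gapFactor Q 6 := by
  refine Finset.prod_pos fun p hp => ?_
  have h2 : (2 : ℝ) ≤ p := by exact_mod_cast (hQ p hp).two_le
  have hp0 : (0 : ℝ) < p := by linarith
  have h3 : 0 < 1 - 1 / (p : ℝ) := by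
    rw [sub_pos, div_lt_one hp0]
    linarith
  refine div_pos ?_ (by positivity)
  split_ifs with h
  · exact h3
  · have h4 : 3 ≤ p := by
      have h5 := (hQ p hp).two_le
      by_contra hc
      have h6 : p = 2 := by omega
      rw [h6] at h
      exact h (by norm_num)
    have h4' : (3 : ℝ) ≤ p := by exact_mod_cast h4
    rw [sub_pos, div_lt_one hp0]
    linarith

lemma pairs_eq (S : Set ℕ) (d y h : ℕ) : gapPairs S d y h = Pool.Agent.R960.Fam.cntX S {0, d} (Finset.Ioo 0 d) y h := by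
  unfold gapPairs Pool.Agent.R960.Fam.cntX
  congr 1
  ext m
  simp only [Finset.mem_insert, Finset.mem_singleton, forall_eq_or_imp, forall_eq, Nat.add_zero, Set.mem_ofPred_eq,
    Finset.mem_Ioo]
  constructor
  · rintro ⟨a, b, c, f⟩
    exact ⟨a, ⟨b, c⟩, fun s hs => f _ (by omega) (by omega)⟩
  · rintro ⟨a, ⟨b, c⟩, f⟩
    refine ⟨a, b, c, fun j h1 h2 => ?_⟩
    have := f (j - m) (by omega)
    rwa [show m + (j - m) = j by omega] at this

lemma count_eq (S : Set ℕ) {d : ℕ} {n : ℕ} (hn : d + 1 ≤ n) :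
    gapCount S d n = gapPairs S d (n ^ 3) ((n + 1) ^ 3 - (d + 1) - n ^ 3) := by
  unfold gapCount gapPairs
  congr 1
  ext m
  have h1 : n ^ 3 + (d + 1) ≤ (n + 1) ^ 3 := by
    have : (n + 1) ^ 3 = n ^ 3 + 3 * n ^ 2 + 3 * n + 1 := by ring
    nlinarith
  simp only [Set.mem_ofPred_eq]
  constructor
  · rintro ⟨a, b, c, f, g⟩
    exact ⟨⟨f, by omega⟩, a, b, c⟩
  · rintro ⟨⟨f, g⟩, a, b, c⟩
    exact ⟨a, b, c, f, by omega⟩

end Pool.Agent.Results.MP_5628fe_nt.GapsInSievedModels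

open Pool.Agent.Results.MP_5628fe_nt.GapsInSievedModels

theorem Pool.Agent.Results.MP_5628fe_nt.GapsInSievedModels.result
    {Ω : Type} [mΩ : MeasurableSpace Ω] (μ : Measure Ω) [IsProbabilityMeasure μ]
    (ℱ : Filtration ℕ mΩ) (A : ℕ → Set Ω) (hA : ∀ n, MeasurableSet[ℱ n] (A n))
    (Q : Finset ℕ) (hQ : ∀ p ∈ Q, p.Prime) (hcop : ∀ n, (∃ p ∈ Q, p ∣ n) → A n = ∅)
    (hd : ∀ᵐ ω ∂μ, Tendsto (fun n : ℕ => density μ ℱ A n ω * Real.log n)
        (atTop ⊓ 𝓟 {n : ℕ | ∀ p ∈ Q, ¬ p ∣ n + 1}) (𝓝 (∏ p ∈ Q, (1 - 1 / (p : ℝ))⁻¹))) :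
    0 < gapFactor Q 6 ∧
    ∀ᵐ ω ∂μ,
      (∀ d : ℕ, 1 ≤ d →
        Tendsto (fun n : ℕ => (gapCount {a | ω ∈ A a} d n : ℝ) * Real.log n ^ 2 / (n : ℝ) ^ 2) atTop
          (𝓝 (gapFactor Q d / 3)) ∧
        ∀ ε : ℝ, 0 < ε → ∀ᶠ y : ℕ in atTop, ∀ h : ℕ, h ≤ y → Real.log y ^ 8 ≤ h →
          |(gapPairs {a | ω ∈ A a} d y h : ℝ) * Real.log y ^ 2 / h - gapFactor Q d| ≤ ε) ∧
      Tendsto (fun n : ℕ => gapCount {a | ω ∈ A a} 6 n) atTop atTop := by
  refine ⟨six_pos Q hQ, ?_⟩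
  filter_upwards [Pool.Agent.R960.Fam.int_law (μ := μ) hA Q hQ hcop hd] with ω hω
  have hF : ∀ d : ℕ, 1 ≤ d → Pool.Agent.R960.Fam.LawF (gapPairs {a | ω ∈ A a} d) 2 8 (gapFactor Q d) := by
    intro d hd1
    have h1 := Pool.Agent.R960.Fam.exact_law (S := {a | ω ∈ A a}) (Q := Q) (H := {0, d}) (E := Finset.Ioo 0 d)
      (by
        intro s hs
        have := Finset.mem_Ioo.1 hs
        simp only [Finset.mem_insert, Finset.mem_singleton, not_or]
        omega) (hω _) (fun s _ => hω _)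
    rw [card_pair hd1, sing_eq Q hQ hd1] at h1
    intro ε hε
    filter_upwards [h1 ε hε] with y hy h a b
    rw [pairs_eq]
    exact hy h a b
  have hG : ∀ d : ℕ, 1 ≤ d →
      Tendsto (fun n : ℕ => (gapCount {a | ω ∈ A a} d n : ℝ) * Real.log n ^ 2 / (n : ℝ) ^ 2) atTop
          (𝓝 (gapFactor Q d / 3)) := by
    intro d hd1
    have h1 := Pool.Agent.R960.Fam.betweenF_lim (hF d hd1) (e := 3) (by norm_num) (d + 1)
    have e1 : gapFactor Q d * ((3 : ℕ) : ℝ) / ((3 : ℕ) : ℝ) ^ 2 = gapFactor Q d / 3 := by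
      push_cast
      ring
    rw [e1] at h1
    refine h1.congr' ?_
    filter_upwards [eventually_ge_atTop (d + 1)] with n hn
    rw [count_eq _ hn]
  refine ⟨fun d hd1 => ⟨hG d hd1, hF d hd1⟩, ?_⟩
  exact Pool.Agent.R960.Fam.tendsto_of_lim (j := 2) (by norm_num) (div_pos (six_pos Q hQ) (by norm_num)) (hG 6 (by norm_num))
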