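import Mathlib
import Pool.Agent.R463.NarLin

set_option autoImplicit false

/-!
# Narrow progressions in arbitrary sets of sexy primes between consecutive cubes
-/

namespace Pool.Agent.Results.MP_5628fe_nt.NarrowProgressions

open Finset Filter

/-- The `p` such that all prime factors of `p` and of `p + 6` are larger than `p ^ (1 / r)`. -/
def RoughAt (r : ℕ) : Set ℕ :=
  {p | ∀ q : ℕ, q.Prime → (q ∣ p ∨ q ∣ p + 6) → (p : ℝ) ^ (1 / (r : ℝ)) < (q : ℝ)}

/-- `p` is a term of an `l`-term arithmetic progression with difference at most `D`, all terms of which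
are elements of `A` strictly between `n ^ 3` and `(n + 1) ^ 3`. -/
def InProgression (A : Set ℕ) (l : ℕ) (D : ℝ) (n p : ℕ) : Prop :=
  ∃ u d : ℕ, 1 ≤ d ∧ (d : ℝ) ≤ D ∧
    (∀ i < l, u + i * d ∈ A ∧ n ^ 3 < u + i * d ∧ u + i * d < (n + 1) ^ 3) ∧ ∃ i < l, p = u + i * d

theorem prime_sub (r : ℕ) (hr : 2 ≤ r) (p : ℕ) (h1 : p.Prime) (h2 : (p + 6).Prime) : p ∈ RoughAt r := by
  intro q hq hd
  have hpq : p ≤ q := by
    rcases hd with hd | hd
    · rw [(Nat.prime_dvd_prime_iff_eq hq h1).1 hd]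
    · rw [(Nat.prime_dvd_prime_iff_eq hq h2).1 hd]
      omega
  have hn1 : (1 : ℝ) < p := by exact_mod_cast h1.one_lt
  have hr2 : (2 : ℝ) ≤ r := by exact_mod_cast hr
  have h3 : (p : ℝ) ^ (1 / (r : ℝ)) < p := by
    have h4 : (1 / (r : ℝ)) < 1 := by
      rw [div_lt_one (by linarith)]
      linarith
    have := Real.rpow_lt_rpow_of_exponent_lt hn1 h4
    rwa [Real.rpow_one] at this
  exact h3.trans_le (by exact_mod_cast hpq)

/-- the constant terms -/
def cb : Fin 2 → ℤ := ![0, 6]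

lemma ex_iff (q p : ℕ) : (∃ i, (q : ℤ) ∣ ((1 : ℕ) : ℤ) * p + cb i) ↔ (q ∣ p ∨ q ∣ p + 6) := by
  rw [Fin.exists_fin_two]
  have e0 : ((1 : ℕ) : ℤ) * (p : ℤ) + cb 0 = (p : ℤ) := by simp [cb]
  have e1 : ((1 : ℕ) : ℤ) * (p : ℤ) + cb 1 = ((p + 6 : ℕ) : ℤ) := by simp [cb]
  rw [e0, e1, Int.natCast_dvd_natCast, Int.natCast_dvd_natCast]

open Classical in
/-- **Narrow progressions of sexy primes between consecutive cubes.** (1) For `r ≥ 2` the smaller members of
all pairs of primes with difference `6`, in particular of all pairs of sexy primes, are in `RoughAt r`.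
(2) Let `r, l ≥ 2` and `ε > 0`. There is an exponent `B` such that for all large `n` and EVERY set `A` of
numbers `p` such that neither `p` nor `p + 6` has a prime factor `≤ p ^ (1 / r)`: all but at most
`ε n ^ 2 / log ^ 2 n` of the elements of `A` strictly between `n ^ 3` and `(n + 1) ^ 3` are terms of `l`-term
arithmetic progressions, contained in the part of `A` between these cubes, with difference at most
`(log n) ^ B`. -/
theorem result : (∀ r : ℕ, 2 ≤ r → ∀ p : ℕ, p.Prime → (p + 6).Prime → p ∈ RoughAt r) ∧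
    ∀ r : ℕ, 2 ≤ r → ∀ l : ℕ, 2 ≤ l → ∀ ε : ℝ, 0 < ε → ∃ B : ℕ, ∀ᶠ n : ℕ in atTop,
      ∀ A : Set ℕ, A ⊆ RoughAt r →
        (((Ioo (n ^ 3) ((n + 1) ^ 3)).filter (fun p : ℕ =>
          p ∈ A ∧ ¬ InProgression A l (Real.log n ^ B) n p)).card : ℝ) ≤ ε * (n ^ 2 / Real.log n ^ 2) := by
  refine ⟨fun r hr p h1 h2 => prime_sub r hr p h1 h2, ?_⟩
  intro r hr l hl ε hε
  obtain ⟨B, hB⟩ := Pool.Agent.R463.NL.narrow_lin (k := 2) (by norm_num) (fun _ => 1) cb
    (fun _ => one_pos) (fun i => by simpa using isCoprime_one_left)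
    (fun i j _ h => by
      fin_cases i <;> fin_cases j
      · rfl
      · exact absurd h (by decide)
      · exact absurd h (by decide)
      · rfl)
    (fun p hp => by
      by_cases h : p ∣ 7
      · refine ⟨5, ?_⟩
        have hp7 : p = 7 := (Nat.prime_dvd_prime_iff_eq hp (by norm_num)).1 h
        subst hp7
        intro i hi
        have := (ex_iff 7 5).1 ⟨i, hi⟩
        revert this
        decide
      · refine ⟨1, fun i hi => ?_⟩
        rcases (ex_iff p 1).1 ⟨i, hi⟩ with h1 | h1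
        · exact hp.one_lt.ne' (Nat.dvd_one.1 h1)
        · exact h h1)
    (1 / 2) (by norm_num) r hr l hl ε hε
  refine ⟨2 * B, ?_⟩
  have hcube : Tendsto (fun n : ℕ => n ^ 3) atTop atTop := tendsto_pow_atTop (by norm_num)
  have hlog : Tendsto (fun n : ℕ => Real.log (n : ℝ)) atTop atTop :=
    Real.tendsto_log_atTop.comp tendsto_natCast_atTop_atTop
  filter_upwards [hcube.eventually hB, eventually_ge_atTop 10, hlog.eventually_ge_atTop 3]
    with n hn hn10 hlog3 A hA
  have hnr : (10 : ℝ) ≤ n := by exact_mod_cast hn10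
  have h1 := hn (3 * n ^ 2 + 3 * n) (by
    have e1 : (((n ^ 3 : ℕ) : ℝ)) ^ (1 / 2 : ℝ) ≤ (n : ℝ) ^ 2 := by
      rw [← Real.sqrt_eq_rpow, Real.sqrt_le_iff]
      refine ⟨by positivity, ?_⟩
      push_cast
      have : (n : ℝ) ^ 3 * 1 ≤ (n : ℝ) ^ 3 * n := mul_le_mul_of_nonneg_left (by linarith) (by positivity)
      nlinarith
    refine e1.trans ?_
    push_cast
    nlinarith) (by
    have : 10 * n ^ 2 ≤ n * n ^ 2 := Nat.mul_le_mul_right _ hn10
    have h3 : n ^ 3 = n * n ^ 2 := by ring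
    nlinarith) A (fun p hp i q hq hd => hA hp q hq ((ex_iff q p).1 ⟨i, hd⟩))
  have hcub : (n + 1) ^ 3 = n ^ 3 + (3 * n ^ 2 + 3 * n) + 1 := by ring
  have hlogX : Real.log ((n ^ 3 : ℕ) : ℝ) = 3 * Real.log n := by
    push_cast
    rw [Real.log_pow]
    norm_num
  rw [hlogX] at h1
  refine le_trans ?_ (h1.trans ?_)
  · have hsub : (Ioo (n ^ 3) ((n + 1) ^ 3)).filter (fun p : ℕ =>
          p ∈ A ∧ ¬ InProgression A l (Real.log n ^ (2 * B)) n p) ⊆
        (Ioc (n ^ 3) (n ^ 3 + (3 * n ^ 2 + 3 * n))).filter (fun p : ℕ =>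
          p ∈ A ∧ ¬ Pool.Agent.R463.NL.InProgression A l ((3 * Real.log n) ^ B) (n ^ 3)
            (n ^ 3 + (3 * n ^ 2 + 3 * n)) p) := by
      intro p hp
      rw [mem_filter, mem_Ioo] at hp
      rw [mem_filter, mem_Ioc]
      refine ⟨⟨hp.1.1, by omega⟩, hp.2.1, ?_⟩
      rintro ⟨u, d, hd1, hd2, hud, hex⟩
      apply hp.2.2
      refine ⟨u, d, hd1, hd2.trans ?_, fun i hi => ?_, hex⟩
      · rw [pow_mul]
        apply pow_le_pow_left₀ (by positivity)
        nlinarith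
      · obtain ⟨g1, g2, g3⟩ := hud i hi
        exact ⟨g1, g2, by omega⟩
    exact_mod_cast card_le_card hsub
  · apply mul_le_mul_of_nonneg_left _ hε.le
    rw [div_le_div_iff₀ (by positivity) (by positivity)]
    push_cast
    have h5 : (3 * (n : ℝ) ^ 2 + 3 * n) ≤ 9 * (n : ℝ) ^ 2 := by nlinarith
    calc (3 * (n : ℝ) ^ 2 + 3 * n) * Real.log n ^ 2 ≤ 9 * (n : ℝ) ^ 2 * Real.log n ^ 2 :=
          mul_le_mul_of_nonneg_right h5 (by positivity)
      _ = (n : ℝ) ^ 2 * (3 * Real.log n) ^ 2 := by ring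

end Pool.Agent.Results.MP_5628fe_nt.NarrowProgressions
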