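import Mathlib
import Pool.Agent.R463.Lin2

set_option autoImplicit false

/-!
# Regular points of arbitrary sets of sexy primes between consecutive cubes
-/

namespace Pool.Agent.Results.MP_5628fe_nt.RegularPoints

open Finset Filter
open Pool.Agent.R463.PS

/-- neither `p` nor `p + 6` has a prime factor `q ≤ (n ^ 3) ^ (1 / r)` -/
def Good (n r p : ℕ) : Prop :=
  ∀ q : ℕ, q.Prime → (q : ℝ) ≤ ((n ^ 3 : ℕ) : ℝ) ^ (1 / (r : ℝ)) → ¬ q ∣ p ∧ ¬ q ∣ p + 6

/-- the density: the product over the primes `q ≤ (n ^ 3) ^ (1 / r)` of `1 - 1 / q` for `q ≤ 3` and of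
`1 - 2 / q` for `q > 3` -/
noncomputable def V (n r : ℕ) : ℝ :=
  ∏ q ∈ (Icc 1 ⌊((n ^ 3 : ℕ) : ℝ) ^ (1 / (r : ℝ))⌋₊).filter Nat.Prime,
    (1 - ((if q ≤ 3 then 1 else 2 : ℕ) : ℝ) / q)

/-- the shifts -/
def sh : Fin 2 → ℤ := ![0, 6]

lemma ex_iff (q p : ℕ) : (∃ i, (q : ℤ) ∣ 1 * (p : ℤ) + sh i) ↔ (q ∣ p ∨ q ∣ p + 6) := by
  rw [Fin.exists_fin_two]
  have e0 : 1 * (p : ℤ) + sh 0 = (p : ℤ) := by simp [sh]
  have e1 : 1 * (p : ℤ) + sh 1 = ((p + 6 : ℕ) : ℤ) := by simp [sh]
  rw [e0, e1, Int.natCast_dvd_natCast, Int.natCast_dvd_natCast]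

lemma adm : AdmL (fun _ : Fin 2 => (1 : ℤ)) sh := by
  refine ⟨fun _ => one_pos, fun p hp => ?_⟩
  by_cases h : p ∣ 7
  · refine ⟨5, fun i hi => ?_⟩
    have hp7 : p = 7 := (Nat.prime_dvd_prime_iff_eq hp (by norm_num)).1 h
    subst hp7
    have := (ex_iff 7 5).1 ⟨i, hi⟩
    revert this
    decide
  · refine ⟨1, fun i hi => ?_⟩
    rcases (ex_iff p 1).1 ⟨i, hi⟩ with h1 | h1
    · exact hp.one_lt.ne' (Nat.dvd_one.1 h1)
    · exact h h1

lemma good_iff (n r p : ℕ) : Good n r p ↔ Sifted (ls (fun _ => 1) sh) (n ^ 3) r p := by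
  rw [ls_sift]
  unfold Good
  constructor
  · intro h q hq hqr i hd
    rcases (ex_iff q p).1 ⟨i, hd⟩ with h1 | h1
    · exact (h q hq hqr).1 h1
    · exact (h q hq hqr).2 h1
  · intro h q hq hqr
    constructor
    · intro h1
      obtain ⟨i, hi⟩ := (ex_iff q p).2 (Or.inl h1)
      exact h q hq hqr i hi
    · intro h1
      obtain ⟨i, hi⟩ := (ex_iff q p).2 (Or.inr h1)
      exact h q hq hqr i hi

lemma om_eq (q : ℕ) (hq : q.Prime) : om (ls (fun _ => 1) sh) q = if q ≤ 3 then 1 else 2 := by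
  classical
  rw [ls_om]
  simp only [ex_iff]
  have hq2 := hq.two_le
  split_ifs with h3
  · have : q = 2 ∨ q = 3 := by omega
    rcases this with rfl | rfl
    · decide
    · decide
  · have e : (range q).filter (fun p : ℕ => q ∣ p ∨ q ∣ p + 6) = {0, (q - 6 % q) % q} := by
      ext p
      simp only [mem_filter, mem_range, mem_insert, mem_singleton]
      have h6 : 6 % q < q := Nat.mod_lt _ hq.pos
      have h60 : 6 % q ≠ 0 := by
        intro h
        have h1 : q ∣ 2 * 3 := Nat.dvd_of_mod_eq_zero h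
        rcases hq.dvd_mul.1 h1 with h2 | h2
        · have := Nat.le_of_dvd (by norm_num) h2
          omega
        · have := Nat.le_of_dvd (by norm_num) h2
          omega
      have hmod : (q - 6 % q) % q = q - 6 % q := Nat.mod_eq_of_lt (by omega)
      rw [hmod]
      constructor
      · rintro ⟨hp, h1 | h1⟩
        · left
          exact Nat.eq_zero_of_dvd_of_lt h1 hp
        · right
          have h2 : q ∣ p + 6 % q := by
            have h4 := Nat.div_add_mod 6 q
            have h5 : p + 6 = q * (6 / q) + (p + 6 % q) := by omega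
            rw [h5] at h1
            exact (Nat.dvd_add_right (dvd_mul_right _ _)).1 h1
          obtain ⟨c, hc⟩ := h2
          have hc1 : c = 1 := by
            rcases Nat.lt_or_ge c 1 with h | h
            · have : c = 0 := by omega
              subst this
              omega
            · rcases Nat.lt_or_ge c 2 with h' | h'
              · omega
              · have : q * 2 ≤ q * c := Nat.mul_le_mul_left _ h'
                omega
          subst hc1
          omega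
      · rintro (rfl | rfl)
        · exact ⟨hq.pos, Or.inl (dvd_zero _)⟩
        · refine ⟨by omega, Or.inr ?_⟩
          have h4 := Nat.div_add_mod 6 q
          refine ⟨6 / q + 1, ?_⟩
          rw [mul_add, mul_one]
          omega
    rw [e, card_pair]
    have h6 : 6 % q < q := Nat.mod_lt _ hq.pos
    have h60 : 6 % q ≠ 0 := by
      intro h
      have h1 : q ∣ 2 * 3 := Nat.dvd_of_mod_eq_zero h
      rcases hq.dvd_mul.1 h1 with h2 | h2
      · have := Nat.le_of_dvd (by norm_num) h2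
        omega
      · have := Nat.le_of_dvd (by norm_num) h2
        omega
    have hmod : (q - 6 % q) % q = q - 6 % q := Nat.mod_eq_of_lt (by omega)
    omega

lemma V_eq (n r : ℕ) : V n r = Pool.Agent.R463.PS.V (ls (fun _ => 1) sh) (n ^ 3) r := by
  unfold V Pool.Agent.R463.PS.V
  apply prod_congr rfl
  intro q hq
  rw [om_eq q (mem_filter.1 hq).2]

open Classical in
/-- **Regular points of arbitrary sets of sexy primes between consecutive cubes.**

`Regular S V κ δ D Y p`: every interval `(p - s, p + t]`, `s, t ≤ Y`, with `κ (s + t) V ≥ 1` contains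
between `κ (s + t) V` and `(s + t) V / κ` elements of `S`, and for all scales `1 / V ≤ 2 ^ j ≤ Y` with at
most `D` exceptions there is a density `κ ≤ lam ≤ 1 / κ` such that all intervals `(p - s, p + t]`,
`s, t ≤ 2 ^ j`, contain `lam (s + t) V` elements of `S`, up to `δ 2 ^ j V`.

There is `r₀` such that for all `r ≥ r₀` and `ε > 0` there is `κ > 0`, and for all `δ > 0` there is `D`, such
that for ALL large `n` and EVERY set `S` of `p` such that neither `p` nor `p + 6` has a prime factor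
`≤ (n ^ 3) ^ (1 / r)`: at most `ε n ^ 2 V` elements of `S` strictly between `n ^ 3` and `(n + 1) ^ 3` are not
regular points of `S` (with `Y = 3 n ^ 2 + 3 n`). -/
theorem result : ∃ r₀ : ℕ, 2 ≤ r₀ ∧ ∀ r : ℕ, r₀ ≤ r → ∀ ε : ℝ, 0 < ε → ∃ κ : ℝ, 0 < κ ∧
    ∀ δ : ℝ, 0 < δ → ∃ D : ℕ, ∀ᶠ n : ℕ in atTop, ∀ S : Set ℕ, (∀ p ∈ S, Good n r p) →
      (((Ioo (n ^ 3) ((n + 1) ^ 3)).filter (fun p => p ∈ S ∧
        ¬ Regular S (V n r) κ δ D (3 * n ^ 2 + 3 * n) p)).card : ℝ) ≤ ε * ((n : ℝ) ^ 2 * V n r) := by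
  obtain ⟨r₀, hr₀, H⟩ := regular 2 1 (2 * 2) 1 1 (1 / 2) one_pos one_pos (by norm_num)
  refine ⟨r₀, hr₀, fun r hr ε hε => ?_⟩
  obtain ⟨C, hC, hVz⟩ := Vz_le r (hr₀.trans hr)
  obtain ⟨κ, hκ, h1⟩ := H r hr C hC (ε / 6) (by positivity)
  refine ⟨κ, hκ, fun δ hδ => ?_⟩
  obtain ⟨D, h2⟩ := h1 δ hδ
  refine ⟨D, ?_⟩
  have hcube : Tendsto (fun n : ℕ => n ^ 3) atTop atTop := tendsto_pow_atTop (by norm_num)
  filter_upwards [hcube.eventually h2, hcube.eventually hVz, eventually_ge_atTop 10] with n h1 h3 hn10 S hS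
  have hnr : (10 : ℝ) ≤ n := by exact_mod_cast hn10
  have hX6 : (6 : ℝ) ≤ ((n ^ 3 : ℕ) : ℝ) := by
    push_cast
    nlinarith [pow_pos (show (0 : ℝ) < n by linarith) 2]
  have h4 := h1 (ls (fun _ => 1) sh) (lin_system adm _ _ (fun i => by
      rw [Real.rpow_one]
      push_cast
      push_cast at hX6
      rw [abs_one]
      linarith) (fun i => by
      rw [Real.rpow_one]
      fin_cases i
      · simp [sh]
      · simp only [sh]
        push_cast
        push_cast at hX6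
        norm_num
        exact hX6) (fun i j t ht ht0 => by
      have h3 : (1 : ℝ) ≤ t := by exact_mod_cast ht
      linarith)) (exc _ sh) (exc_card _ sh)
    (fun i j t _ _ ht3 => ⟨ls_ne i j t (exc_mem adm i j t ht3), ls_ne_neg adm i j t⟩)
    ((V_le_Vz _ (n ^ 3) r (fun p hp => om_monic (0 : Fin 2) rfl p hp)).trans h3)
    (n ^ 3) (3 * n ^ 2 + 3 * n) (by
    have e1 : (((n ^ 3 : ℕ) : ℝ)) ^ (1 / 2 : ℝ) ≤ (n : ℝ) ^ 2 := by
      rw [← Real.sqrt_eq_rpow, Real.sqrt_le_iff]
      refine ⟨by positivity, ?_⟩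
      push_cast
      have : (n : ℝ) ^ 3 * 1 ≤ (n : ℝ) ^ 3 * n := mul_le_mul_of_nonneg_left (by linarith) (by positivity)
      nlinarith
    refine e1.trans ?_
    push_cast
    nlinarith) (by
    have : 10 * n ^ 2 ≤ n * n ^ 2 := Nat.mul_le_mul_right _ hn10
    have h3 : n ^ 3 = n * n ^ 2 := by ring
    nlinarith) (by
    have : 10 * n ^ 2 ≤ n * n ^ 2 := Nat.mul_le_mul_right _ hn10
    have h3 : n ^ 3 = n * n ^ 2 := by ring
    nlinarith) S (fun p hp => (good_iff n r p).1 (hS p hp))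
  rw [← V_eq] at h4
  have hcub : (n + 1) ^ 3 = n ^ 3 + (3 * n ^ 2 + 3 * n) + 1 := by ring
  have hI : Ioo (n ^ 3) ((n + 1) ^ 3) = Ioc (n ^ 3) (n ^ 3 + (3 * n ^ 2 + 3 * n)) := by
    ext p
    rw [mem_Ioo, mem_Ioc]
    omega
  rw [hI]
  refine h4.trans ?_
  have hV0 : 0 ≤ V n r := by
    unfold V
    apply prod_nonneg
    intro q hq
    have hq' := (mem_filter.1 hq).2
    have hq0 : (0 : ℝ) < q := by exact_mod_cast hq'.pos
    rw [sub_nonneg, div_le_one hq0]
    have h5 : (if q ≤ 3 then 1 else 2 : ℕ) ≤ q := by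
      have := hq'.two_le
      split_ifs <;> omega
    exact_mod_cast h5
  push_cast
  have h5 : (3 * (n : ℝ) ^ 2 + 3 * n) ≤ 6 * (n : ℝ) ^ 2 := by nlinarith
  calc ε / 6 * ((3 * (n : ℝ) ^ 2 + 3 * n) * V n r) ≤ ε / 6 * (6 * (n : ℝ) ^ 2 * V n r) := by
        apply mul_le_mul_of_nonneg_left _ (by positivity)
        exact mul_le_mul_of_nonneg_right h5 hV0
    _ = ε * ((n : ℝ) ^ 2 * V n r) := by ring

end Pool.Agent.Results.MP_5628fe_nt.RegularPoints
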